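import Pool.Agent.H31.KSmyth

set_option autoImplicit false

namespace Pool.Agent.Results.MP_360cb4_gt.Neg

open Pool.Agent.H31.KS

theorem result : ∃ K : (Y : Type) → TopologicalSpace Y → Prop,
    (∀ (Y : Type) [s : TopologicalSpace Y], K Y s → T0Space Y) ∧
    (∀ (Y Z : Type) [s : TopologicalSpace Y] [t : TopologicalSpace Z],
      Nonempty (Y ≃ₜ Z) → K Y s → K Z t) ∧
    (∀ (Y : Type) [s : TopologicalSpace Y], T0Space Y → QuasiSober Y → K Y s) ∧
    (∀ (X : Type) [TopologicalSpace X], T0Space X → K (PH K X) (topPH K X)) ∧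
    (∀ (X : Type) [t : TopologicalSpace X], K X t → K (PS X) (topPS X)) ∧
    ∃ (X : Type) (_ : TopologicalSpace X), T0Space X ∧
      (∀ A : Set X, (IsClosed A ∧ IsIrreducible A) ↔ (IsClosed A ∧ Det K A)) ∧
      ∃ A : Set (PS X), @IsClosed (PS X) (topPS X) A ∧ @IsIrreducible (PS X) (topPS X) A ∧
        ¬ @Det K (PS X) (topPS X) A :=
  ⟨Pool.Agent.H31.Smyth.WF, fun _ _ h => h.1, fun Y Z _ _ ⟨e⟩ h => wf_homeo Y Z e h,
    fun Y _ h h' => wf_sober Y h h', fun X _ _ => adequate X, fun X _ h => smyth X h,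
    Pool.Agent.H31.Smyth.X, inferInstance, inferInstance, X_det, PS_not⟩

end Pool.Agent.Results.MP_360cb4_gt.Neg
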